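import Pool.Agent.Run7.h723.OG.Iface2

/-!
Pieces PAIR and PAIR2 of project OG (helper723, page MP_e4b521_co).
-/

set_option autoImplicit false
set_option linter.unusedSectionVars false

namespace Pool.Agent.Run7.h650.OG

open Pool.H723.OG

section

variable {V : Type} [Fintype V] [DecidableEq V] (G : SimpleGraph V)

open Classical in
/-- the neighbours of `v` -/
noncomputable def N (v : V) : Finset V := Finset.univ.filter (fun u => G.Adj u v)

theorem dg_eq (v : V) : dg G v = (N G v).card := rfl

theorem mem_N {u v : V} : u ∈ N G v ↔ G.Adj u v := by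
  simp [N]

theorem mem_lev {D : Finset V} {j : ℕ} {v : V} : v ∈ lev G D j ↔ v ∉ D ∧ nb G D v = j := by
  simp [lev]

theorem nb_eq (D : Finset V) (v : V) : nb G D v = (D ∩ N G v).card := by
  unfold nb
  congr 1
  ext u
  simp [mem_N]

/-- the neighbours of `x` or `y` different from `x` and `y` -/
noncomputable def UU (x y : V) : Finset V := (N G x ∪ N G y) \ {x, y}

theorem nb_triple (x y z v : V) (hxy : x ≠ y) (hxz : x ≠ z) (hyz : y ≠ z) :
    nb G {x, y, z} v = (if v ∈ N G x then 1 else 0) + (if v ∈ N G y then 1 else 0) +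
      (if v ∈ N G z then 1 else 0) := by
  classical
  have h1 : ∀ a : V, (a ∈ N G v ↔ v ∈ N G a) := fun a => by
    rw [mem_N, mem_N]
    exact G.adj_comm a v
  rw [nb_eq]
  have h2 : ({x, y, z} : Finset V) ∩ N G v = ({x, y, z} : Finset V).filter (fun a => v ∈ N G a) := by
    ext a
    rw [Finset.mem_inter, Finset.mem_filter, h1]
  rw [h2, Finset.card_filter, Finset.sum_insert (by simp [hxy, hxz]),
    Finset.sum_insert (by simp [hyz]), Finset.sum_singleton, add_assoc]

theorem w3_le (x y z : V) (hxy : x ≠ y) (hxz : x ≠ z) (hyz : y ≠ z) :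
    w3 G x y z ≤ (N G x ∩ N G y).card + nb G (UU G x y) z := by
  classical
  rw [nb_eq]
  have hL3 : lev G {x, y, z} 3 ⊆ (N G x ∩ N G y) ∩ (UU G x y ∩ N G z) := by
    intro v hv
    rw [mem_lev, nb_triple G x y z v hxy hxz hyz] at hv
    obtain ⟨hv1, hv2⟩ := hv
    unfold UU
    simp only [Finset.mem_insert, Finset.mem_singleton, not_or] at hv1
    simp only [Finset.mem_inter, Finset.mem_sdiff, Finset.mem_union, Finset.mem_insert,
      Finset.mem_singleton, not_or]
    by_cases h1 : v ∈ N G x <;> by_cases h2 : v ∈ N G y <;> by_cases h3 : v ∈ N G z <;>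
      simp [h1, h2, h3] at hv2 ⊢
    exact ⟨hv1.1, hv1.2.1⟩
  have hL2 : lev G {x, y, z} 2 ⊆ (N G x ∩ N G y) ∪ (UU G x y ∩ N G z) := by
    intro v hv
    rw [mem_lev, nb_triple G x y z v hxy hxz hyz] at hv
    obtain ⟨hv1, hv2⟩ := hv
    unfold UU
    simp only [Finset.mem_insert, Finset.mem_singleton, not_or] at hv1
    simp only [Finset.mem_inter, Finset.mem_sdiff, Finset.mem_union, Finset.mem_insert,
      Finset.mem_singleton, not_or]
    by_cases h1 : v ∈ N G x <;> by_cases h2 : v ∈ N G y <;> by_cases h3 : v ∈ N G z <;>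
      simp [h1, h2, h3] at hv2 ⊢
    · exact ⟨hv1.1, hv1.2.1⟩
    · exact ⟨hv1.1, hv1.2.1⟩
  have hdis : Disjoint (lev G {x, y, z} 2) (lev G {x, y, z} 3) := by
    rw [Finset.disjoint_left]
    intro v hv hv'
    rw [mem_lev] at hv hv'
    omega
  have h1 : (lev G {x, y, z} 2).card + (lev G {x, y, z} 3).card ≤
      ((N G x ∩ N G y) ∪ (UU G x y ∩ N G z)).card := by
    rw [← Finset.card_union_of_disjoint hdis]
    refine Finset.card_le_card (Finset.union_subset hL2 ?_)
    exact hL3.trans (Finset.inter_subset_left.trans Finset.subset_union_left)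
  have h2 := Finset.card_le_card hL3
  have h3 := Finset.card_union_add_card_inter (N G x ∩ N G y) (UU G x y ∩ N G z)
  unfold w3
  omega

open Classical in
theorem card_UU (x y : V) (hxy : x ≠ y) :
    (UU G x y).card + (N G x ∩ N G y).card + (if G.Adj x y then 2 else 0) = dg G x + dg G y := by
  have h1 := Finset.card_union_add_card_inter (N G x) (N G y)
  rw [dg_eq, dg_eq]
  unfold UU
  by_cases h : G.Adj x y
  · rw [if_pos h]
    have h2 : ({x, y} : Finset V) ⊆ N G x ∪ N G y := by
      intro a ha
      rw [Finset.mem_insert, Finset.mem_singleton] at ha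
      rw [Finset.mem_union, mem_N, mem_N]
      rcases ha with rfl | rfl
      · right; exact h
      · left; exact h.symm
    have h3 := Finset.card_sdiff_add_card_eq_card h2
    rw [Finset.card_pair hxy] at h3
    omega
  · rw [if_neg h]
    have h2 : (N G x ∪ N G y) \ {x, y} = N G x ∪ N G y := by
      rw [Finset.sdiff_eq_self_iff_disjoint, Finset.disjoint_right]
      intro a ha
      rw [Finset.mem_insert, Finset.mem_singleton] at ha
      rw [Finset.mem_union, mem_N, mem_N]
      rcases ha with rfl | rfl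
      · rintro (h4 | h4)
        · exact G.loopless.irrefl _ h4
        · exact h h4
      · rintro (h4 | h4)
        · exact h h4.symm
        · exact G.loopless.irrefl _ h4
    rw [h2]
    omega

open Classical in
theorem nb_lower (x y : V) (hxy : x ≠ y) (t : ℕ)
    (hw : ∀ z, z ≠ x → z ≠ y → 2 * t ≤ w3 G x y z) (hd : dg G x + dg G y ≤ 3 * t)
    (D : Finset V) (hD : D ⊆ UU G x y) (z : V) (hzx : z ≠ x) (hzy : z ≠ y) :
    D.card + (if G.Adj x y then 2 else 0) ≤ nb G D z + t := by
  have h1 := hw z hzx hzy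
  have h2 := w3_le G x y z hxy hzx.symm hzy.symm
  have h3 := card_UU G x y hxy
  have h4 : nb G (UU G x y) z + D.card ≤ nb G D z + (UU G x y).card := by
    rw [nb_eq, nb_eq]
    have h5 : UU G x y ∩ N G z ⊆ (D ∩ N G z) ∪ (UU G x y \ D) := by
      intro a ha
      rw [Finset.mem_inter] at ha
      rw [Finset.mem_union, Finset.mem_inter, Finset.mem_sdiff]
      by_cases h6 : a ∈ D
      · left; exact ⟨h6, ha.2⟩
      · right; exact ⟨ha.1, h6⟩
    have h6 := (Finset.card_le_card h5).trans (Finset.card_union_le _ _)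
    have h7 := Finset.card_sdiff_add_card_eq_card hD
    omega
  omega

theorem costA (x y : V) (D : Finset V)
    (h : ∀ z, z ≠ x → z ≠ y → z ∉ D → 2 ≤ nb G D z) : cost2 G D ≤ 2 * D.card + 4 := by
  classical
  have hsub : ∀ j, j ≤ 1 → lev G D j ⊆ {x, y} := by
    intro j hj v hv
    rw [mem_lev] at hv
    rw [Finset.mem_insert, Finset.mem_singleton]
    by_contra hc
    rw [not_or] at hc
    have h1 := h v hc.1 hc.2 hv.1
    omega
  have hdis : Disjoint (lev G D 0) (lev G D 1) := by
    rw [Finset.disjoint_left]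
    intro v hv hv'
    rw [mem_lev] at hv hv'
    omega
  have h1 : (lev G D 0).card + (lev G D 1).card ≤ 2 := by
    rw [← Finset.card_union_of_disjoint hdis]
    exact (Finset.card_le_card (Finset.union_subset (hsub 0 (by omega)) (hsub 1 (le_refl _)))).trans
      Finset.card_le_two
  unfold cost2
  omega

theorem costB (x y : V) (D : Finset V)
    (h : ∀ z, z ≠ x → z ≠ y → z ∉ D → 2 ≤ nb G D z) (hx : 1 ≤ nb G D x) (hy : 1 ≤ nb G D y)
    (hxy : 2 ≤ nb G D x ∨ 2 ≤ nb G D y) : cost2 G D ≤ 2 * D.card + 1 := by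
  classical
  have h0 : lev G D 0 = ∅ := by
    rw [Finset.eq_empty_iff_forall_notMem]
    intro v hv
    rw [mem_lev] at hv
    obtain ⟨hv1, hv2⟩ := hv
    by_cases h1 : v = x
    · subst h1; omega
    · by_cases h2 : v = y
      · subst h2; omega
      · have := h v h1 h2 hv1
        omega
  have h1 : (lev G D 1).card ≤ 1 := by
    rw [Finset.card_le_one_iff]
    intro a b ha hb
    rw [mem_lev] at ha hb
    obtain ⟨ha1, ha2⟩ := ha
    obtain ⟨hb1, hb2⟩ := hb
    have hc : ∀ v, v ∉ D → nb G D v = 1 → (v = x ∨ v = y) ∧ (v = x → nb G D x = 1) ∧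
        (v = y → nb G D y = 1) := by
      intro v hv1 hv2
      refine ⟨?_, fun e => by rw [← e]; exact hv2, fun e => by rw [← e]; exact hv2⟩
      by_contra hc
      rw [not_or] at hc
      have := h v hc.1 hc.2 hv1
      omega
    obtain ⟨ha3, ha4, ha5⟩ := hc a ha1 ha2
    obtain ⟨hb3, hb4, hb5⟩ := hc b hb1 hb2
    rcases ha3 with rfl | rfl <;> rcases hb3 with rfl | rfl
    · rfl
    · have := ha4 rfl
      have := hb5 rfl
      omega
    · have := ha5 rfl
      have := hb4 rfl
      omega
    · rfl
  unfold cost2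
  rw [h0, Finset.card_empty]
  omega

theorem inter_sub (x y : V) : N G x ∩ N G y ⊆ UU G x y := by
  intro a ha
  rw [Finset.mem_inter, mem_N, mem_N] at ha
  unfold UU
  rw [Finset.mem_sdiff, Finset.mem_union, mem_N, mem_N, Finset.mem_insert, Finset.mem_singleton]
  refine ⟨Or.inl ha.1, ?_⟩
  rintro (rfl | rfl)
  · exact G.loopless.irrefl _ ha.1
  · exact G.loopless.irrefl _ ha.2

theorem sub_UU (x y : V) (h : ¬ G.Adj x y) : N G x ⊆ UU G x y ∧ N G y ⊆ UU G x y := by
  constructor
  · intro a ha
    rw [mem_N] at ha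
    unfold UU
    rw [Finset.mem_sdiff, Finset.mem_union, mem_N, mem_N, Finset.mem_insert, Finset.mem_singleton]
    refine ⟨Or.inl ha, ?_⟩
    rintro (rfl | rfl)
    · exact G.loopless.irrefl _ ha
    · exact h ha.symm
  · intro a ha
    rw [mem_N] at ha
    unfold UU
    rw [Finset.mem_sdiff, Finset.mem_union, mem_N, mem_N, Finset.mem_insert, Finset.mem_singleton]
    refine ⟨Or.inr ha, ?_⟩
    rintro (rfl | rfl)
    · exact h ha
    · exact G.loopless.irrefl _ ha

/-- the case of two nonadjacent vertices with many neighbours -/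
theorem big_case (x y : V) (hxy : x ≠ y) (t : ℕ) (ht : 2 ≤ t)
    (hw : ∀ z, z ≠ x → z ≠ y → 2 * t ≤ w3 G x y z) (hd : dg G x + dg G y ≤ 3 * t)
    (h : ¬ G.Adj x y) (hx : 1 ≤ dg G x) (hy : 1 ≤ dg G y) (hxy1 : ¬ (dg G x = 1 ∧ dg G y = 1))
    (hU : t + 2 ≤ (UU G x y).card) : ∃ D : Finset V, cost2 G D ≤ 2 * (t + 2) + 1 := by
  classical
  obtain ⟨X', hX1, hX2⟩ := Finset.exists_subset_card_eq (s := N G x) (n := min 2 (dg G x))
    (by rw [dg_eq]; exact min_le_right _ _)
  obtain ⟨Y', hY1, hY2⟩ := Finset.exists_subset_card_eq (s := N G y) (n := min 2 (dg G y))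
    (by rw [dg_eq]; exact min_le_right _ _)
  have h1 : X' ∪ Y' ⊆ UU G x y :=
    Finset.union_subset (hX1.trans (sub_UU G x y h).1) (hY1.trans (sub_UU G x y h).2)
  have h2 : (X' ∪ Y').card ≤ t + 2 := by
    have := Finset.card_union_le X' Y'
    omega
  obtain ⟨D, hD1, hD2, hD3⟩ := Finset.exists_subsuperset_card_eq h1 h2 hU
  refine ⟨D, ?_⟩
  have h3 : X'.card ≤ nb G D x := by
    rw [nb_eq]
    exact Finset.card_le_card (Finset.subset_inter (Finset.subset_union_left.trans hD1) hX1)
  have h4 : Y'.card ≤ nb G D y := by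
    rw [nb_eq]
    exact Finset.card_le_card (Finset.subset_inter (Finset.subset_union_right.trans hD1) hY1)
  have h5 := costB G x y D (by
    intro z hzx hzy _
    have h6 := nb_lower G x y hxy t hw hd D hD2 z hzx hzy
    rw [if_neg h] at h6
    omega) (by omega) (by omega) (by omega)
  omega

/-- the case of two nonadjacent vertices with few neighbours -/
theorem small_case (x y : V) (hxy : x ≠ y) (t : ℕ)
    (hw : ∀ z, z ≠ x → z ≠ y → 2 * t ≤ w3 G x y z)
    (h : ¬ G.Adj x y) (hx : 1 ≤ dg G x) (hy : 1 ≤ dg G y) (hxy1 : ¬ (dg G x = 1 ∧ dg G y = 1))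
    (hc : (N G x ∩ N G y).card + 2 ≤ 2 * t) : cost2 G (UU G x y) ≤ 2 * (UU G x y).card + 1 := by
  classical
  have h3 : dg G x ≤ nb G (UU G x y) x := by
    rw [nb_eq, dg_eq]
    exact Finset.card_le_card (Finset.subset_inter (sub_UU G x y h).1 (Finset.Subset.refl _))
  have h4 : dg G y ≤ nb G (UU G x y) y := by
    rw [nb_eq, dg_eq]
    exact Finset.card_le_card (Finset.subset_inter (sub_UU G x y h).2 (Finset.Subset.refl _))
  refine costB G x y _ ?_ (by omega) (by omega) (by omega)
  intro z hzx hzy _
  have h5 := hw z hzx hzy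
  have h6 := w3_le G x y z hxy hzx.symm hzy.symm
  omega

end

theorem t_PAIR (hCOST : S_COST) : S_PAIR := by
  intro V _ _ G t x y ht hw hxy hx hy hxy1 hd
  classical
  have hw' : ∀ z, z ≠ x → z ≠ y → 2 * t ≤ w3 G x y z := fun z hzx hzy =>
    hw x y z hxy hzx.symm hzy.symm
  have hcU := Finset.card_le_card (inter_sub G x y)
  by_cases h : G.Adj x y
  · by_cases hU : t ≤ (UU G x y).card
    · obtain ⟨D, hD1, hD2⟩ := Finset.exists_subset_card_eq hU
      apply hCOST V G D
      have h1 := costA G x y D (by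
        intro z hzx hzy _
        have h6 := nb_lower G x y hxy t hw' hd D hD1 z hzx hzy
        rw [if_pos h] at h6
        omega)
      omega
    · apply hCOST V G (UU G x y)
      have h1 := costA G x y (UU G x y) (by
        intro z hzx hzy _
        have h5 := hw' z hzx hzy
        have h6 := w3_le G x y z hxy hzx.symm hzy.symm
        omega)
      omega
  · by_cases hU : t + 2 ≤ (UU G x y).card
    · obtain ⟨D, hD⟩ := big_case G x y hxy t (by omega) hw' hd h hx hy hxy1 hU
      exact hCOST V G D _ hD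
    · apply hCOST V G (UU G x y)
      have h1 := small_case G x y hxy t hw' h hx hy hxy1 (by omega)
      omega

theorem t_PAIR2 (hCOST : S_COST) : S_PAIR2 := by
  intro V _ _ G x y hV hw hxy hx hy hxy1 hd
  classical
  have hw' : ∀ z, z ≠ x → z ≠ y → 2 * 2 ≤ w3 G x y z := fun z hzx hzy =>
    hw x y z hxy hzx.symm hzy.symm
  have hcU := Finset.card_le_card (inter_sub G x y)
  by_cases h : G.Adj x y
  · exfalso
    have h1 : ∀ z, z ≠ x → z ≠ y → (UU G x y).card ≤ nb G (UU G x y) z := by
      intro z hzx hzy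
      have h6 := nb_lower G x y hxy 2 hw' (by omega) _ (Finset.Subset.refl _) z hzx hzy
      rw [if_pos h] at h6
      omega
    by_cases hU : (UU G x y).Nonempty
    · obtain ⟨z, hz⟩ := hU
      have hz' := hz
      unfold UU at hz'
      rw [Finset.mem_sdiff, Finset.mem_insert, Finset.mem_singleton, not_or] at hz'
      have h2 := h1 z hz'.2.1 hz'.2.2
      rw [nb_eq] at h2
      have h3 : UU G x y ∩ N G z = UU G x y :=
        Finset.eq_of_subset_of_card_le Finset.inter_subset_left h2
      rw [← h3, Finset.mem_inter, mem_N] at hz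
      exact G.loopless.irrefl _ hz.2
    · rw [Finset.not_nonempty_iff_eq_empty] at hU
      obtain ⟨z, hz⟩ : ∃ z, z ∉ ({x, y} : Finset V) := by
        by_contra hc
        push_neg at hc
        have h2 : (Finset.univ : Finset V) ⊆ {x, y} := fun a _ => hc a
        have h3 := (Finset.card_le_card h2).trans Finset.card_le_two
        rw [Finset.card_univ] at h3
        omega
      rw [Finset.mem_insert, Finset.mem_singleton, not_or] at hz
      have h5 := hw' z hz.1 hz.2
      have h6 := w3_le G x y z hxy (Ne.symm hz.1) (Ne.symm hz.2)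
      have h7 : nb G (UU G x y) z = 0 := by
        rw [nb_eq, hU, Finset.empty_inter, Finset.card_empty]
      rw [hU, Finset.card_empty] at hcU
      omega
  · by_cases hU : 2 + 2 ≤ (UU G x y).card
    · left
      obtain ⟨D, hD⟩ := big_case G x y hxy 2 (le_refl _) hw' (by omega) h hx hy hxy1 hU
      exact hCOST V G D _ hD
    · by_cases hc : (N G x ∩ N G y).card ≤ 2
      · left
        apply hCOST V G (UU G x y)
        have h1 := small_case G x y hxy 2 hw' h hx hy hxy1 (by omega)
        omega
      · right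
        have h1 : N G x ∩ N G y = UU G x y :=
          Finset.eq_of_subset_of_card_le (inter_sub G x y) (by omega)
        have h2 : N G x = UU G x y := by
          apply Finset.Subset.antisymm (sub_UU G x y h).1
          rw [← h1]
          exact Finset.inter_subset_left
        have h3 : N G y = UU G x y := by
          apply Finset.Subset.antisymm (sub_UU G x y h).2
          rw [← h1]
          exact Finset.inter_subset_right
        rw [h1] at hc
        refine ⟨?_, ?_, ?_⟩
        · rw [dg_eq, h2]; omega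
        · rw [dg_eq, h3]; omega
        · intro v
          have h4 : v ∈ N G x ↔ v ∈ N G y := by rw [h2, h3]
          rw [mem_N, mem_N] at h4
          rw [G.adj_comm x v, G.adj_comm y v]
          exact h4

end Pool.Agent.Run7.h650.OG
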